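import Pool.Agent.AP157.FinB
import Pool.Agent.AP157.Ass2
import Pool.Agent.AP157.SpeedDef

set_option autoImplicit false

/-!
# MP_609556_an, Q1 for bistable, combustion and pushed monostable nonlinearities

Asymptotic local planarity for `∂_t u = Δu + f(u)` in `ℝ^N`, `N ≥ 1`, for nonlinearities which are
positive on `(α,1)` and at most `m s` on `[0,α]`, with `f'(0) ≤ m`, if `m = 0` or if the
spreading speed is larger than `2√m`; for every initial set `U` which satisfies (C) and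
`d_H(U, U_ρ) < ∞`.  The definitions are in `Pool/Agent/AP157/Prob.lean` and `SpeedDef.lean`.
-/

open MeasureTheory Set Filter

namespace Pool.Agent.Results.MP_609556_an.SingleFrontPlanarity

open Pool.Agent.X297.KP Pool.Agent.AP157

/-- Let `f ∈ C¹([0,1])`, `f(0) = f(1) = 0`, and for some `α ∈ [0,1)`, `m ≥ 0`: `f > 0` on `(α,1)`,
`f(s) ≤ m s` on `[0,α]`, `f'(0) ≤ m`.  Let the invasion property hold for `ρ > 0`, and let `m = 0`
or let the spreading speed from the ball `B_ρ` be larger than `2√m`.  Let `U ⊆ ℝ^N`, `N ≥ 1`, be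
measurable, `d_H(U,U_ρ) < ∞`, and let `U` satisfy (C).  Then every element `ψ` of `Ω(u)`, where `u`
is the solution with initial datum `1_U`, is `ψ(x) = Ψ(x·e)` with `Ψ` of class `C²`, constant or
strictly monotone. -/
theorem result {N : ℕ} (hN : 1 ≤ N) {f : ℝ → ℝ} (hf : ContDiffOn ℝ 1 f (Icc 0 1)) (h0 : f 0 = 0)
    (h1 : f 1 = 0) {α : ℝ} (hα : α ∈ Ico (0:ℝ) 1) (hpos : ∀ s ∈ Ioo α 1, 0 < f s)
    {m : ℝ} (hm : 0 ≤ m) (hlin : ∀ s ∈ Icc 0 α, f s ≤ m * s)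
    (hf0 : derivWithin f (Icc 0 1) 0 ≤ m) {ρ : ℝ} (hρ : 0 < ρ) (hI : Invasion N f ρ)
    (hS : m = 0 ∨ SpeedGt N f ρ (2 * √m))
    {U : Set (E N)} (hU : MeasurableSet U) (hH : Metric.hausdorffEDist U (shrink U ρ) < ⊤)
    (hC : CondC U) {u : ℝ → E N → ℝ} (hu : Classical f U u) :
    ∀ ψ ∈ OmegaLimit u, OneDimMono ψ := by
  rintro ψ ⟨_, t, x, ht, hlim⟩
  obtain ⟨M, hM⟩ := nl_of hf h0 h1
  have hN' : 0 < N := by omega
  have h2 := omega_ae hlim
  have h3 : ∀ᵐ y, Tendsto (fun n => S f M (t n) (U.indicator 1) (x n + y)) atTop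
      (nhds (ψ y)) := by
    filter_upwards [h2] with y hy
    refine hy.congr' ?_
    filter_upwards [ht.eventually_gt_atTop 0] with n hn
    exact classical_eq hM hU hu (t n) hn (x n + y)
  obtain ⟨z, Z, ⟨Ta, hTa, hz⟩, hz2⟩ := zfam2 hN' hM hρ (inv_of hM hI)
  obtain ⟨μ, κ₁, C₁, l, hμ, Q⟩ : ∃ μ κ₁ C₁ l : ℝ, m < μ ∧ Par z μ κ₁ C₁ l := by
    rcases hS with h | ⟨c, hc, v, hv, hs⟩
    · obtain ⟨μ, κ₁, C₁, l, hμ, Q⟩ := par_zero Z
      exact ⟨μ, κ₁, C₁, l, by rw [h]; exact hμ, Q⟩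
    · refine par_speed Z hz2 hm hc (fun ε hε => ?_)
      obtain ⟨T, hT⟩ := hs ε hε
      refine ⟨max T 1, fun t ht x hx => ?_⟩
      have h4 := hT t ((le_max_left _ _).trans ht) x hx
      rwa [classical_eq hM Metric.isOpen_ball.measurableSet hv t
        (lt_of_lt_of_le one_pos ((le_max_right _ _).trans ht)) x] at h4
  obtain ⟨d₁, δ, H⟩ := cls_of hf h0 h1 hα hpos hlin hf0 hm hμ
  obtain ⟨v, ⟨e, he, Ψ, hΨ, hmo, hv⟩, hψ⟩ := limit_planar2 hN' Z H Q hTa hz hU hH hC ht h3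
  refine ⟨e, he, Ψ, hΨ, hmo, ?_⟩
  filter_upwards [hψ] with y hy
  rw [hy, hv]

end Pool.Agent.Results.MP_609556_an.SingleFrontPlanarity
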