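import Pool.Agent.AP157.FinC
import Pool.Agent.AP157.KTwo

set_option autoImplicit false

/-!
# MP_609556_an, Q1 for weak KPP nonlinearities

Asymptotic local planarity for `∂_t u = Δu + f(u)` in `ℝ^N`, `N ≥ 1`, for `f > 0` on `(0,1)` with
`m = f'(0) > 0` and `A (m a - f(a)) ≤ m s - f(s)` for `0 ≤ A a ≤ s ≤ 1`, for some `A ≥ 1`; for every
initial set `U` which satisfies (C) and `d_H(U, U_ρ) < ∞` for some `ρ > 0`.  The definitions
`Classical`, `shrink`, `CondC`, `OmegaLimit`, `OneDimMono` are in `Pool/Agent/AP157/Prob.lean`.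

The condition holds if `f' ≤ m` on `[0,1]` (`cond_of_deriv`), if
`c s^(1+β) ≤ m s - f(s) ≤ C s^(1+β)` on `[0,1]` (`cond_of_pow`), and if `f(s) = m s` near `0` and
`f(s) ≤ m s` on `[0,1]` (`cond_of_linear`).
-/

open MeasureTheory Set Filter

namespace Pool.Agent.Results.MP_609556_an.WeakKPPPlanarity

open Pool.Agent.X297.KP Pool.Agent.AP157

/-- Let `f ∈ C¹([0,1])`, `f(0) = f(1) = 0`, `f > 0` on `(0,1)`, `m = f'(0) > 0`, and let there be
`A ≥ 1` with `A (m a - f(a)) ≤ m s - f(s)` whenever `0 ≤ a` and `A a ≤ s ≤ 1`.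
Let `U ⊆ ℝ^N`, `N ≥ 1`, be measurable, `d_H(U,U_ρ) < ∞` for some `ρ > 0`, and let `U` satisfy (C).
Then every element `ψ` of `Ω(u)`, where `u` is the solution with initial datum `1_U`, is
`ψ(x) = Ψ(x·e)` with `Ψ` of class `C²`, constant or strictly monotone. -/
theorem result {N : ℕ} (hN : 1 ≤ N) {f : ℝ → ℝ} (hf : ContDiffOn ℝ 1 f (Icc 0 1)) (h0 : f 0 = 0)
    (h1 : f 1 = 0) (hpos : ∀ s ∈ Ioo (0:ℝ) 1, 0 < f s) {m : ℝ} (hm : 0 < m)
    (hm0 : derivWithin f (Icc 0 1) 0 = m) {A : ℝ} (hA : 1 ≤ A)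
    (hK : ∀ a s, 0 ≤ a → A * a ≤ s → s ≤ 1 → A * (m * a - f a) ≤ m * s - f s)
    {ρ : ℝ} (hρ : 0 < ρ) {U : Set (E N)} (hU : MeasurableSet U)
    (hH : Metric.hausdorffEDist U (shrink U ρ) < ⊤) (hC : CondC U) {u : ℝ → E N → ℝ}
    (hu : Classical f U u) :
    ∀ ψ ∈ OmegaLimit u, OneDimMono ψ := by
  rintro ψ ⟨_, t, x, ht, hlim⟩
  obtain ⟨M, hM⟩ := nl_of hf h0 h1
  have hN' : 0 < N := by omega
  have h2 := omega_ae hlim
  have h3 : ∀ᵐ y, Tendsto (fun n => S f M (t n) (U.indicator 1) (x n + y)) atTop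
      (nhds (ψ y)) := by
    filter_upwards [h2] with y hy
    refine hy.congr' ?_
    filter_upwards [ht.eventually_gt_atTop 0] with n hn
    exact classical_eq hM hU hu (t n) hn (x n + y)
  have H : Mn f m := by
    have := mn_of hf h1 hpos (by rw [hm0]; exact hm)
    rwa [hm0] at this
  have hS : SubA f m A := by
    refine ⟨hA, fun a b ha hb hab => ?_⟩
    have := hK a (A * (a + b)) ha (mul_le_mul_of_nonneg_left (by linarith) (by linarith)) hab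
    linarith
  obtain ⟨v, ⟨e, he, Ψ, hΨ, hmo, hv⟩, hψ⟩ := limit_planar3 hN' hM H hS hU hρ hH hC ht h3
  refine ⟨e, he, Ψ, hΨ, hmo, ?_⟩
  filter_upwards [hψ] with y hy
  rw [hy, hv]

/-! ### Cases in which the condition holds -/

/-- The condition holds with `A = 1` if `f' ≤ m` on `[0,1]`. -/
theorem cond_of_deriv {f : ℝ → ℝ} (hf : ContDiffOn ℝ 1 f (Icc 0 1)) {m : ℝ}
    (h : ∀ s ∈ Icc (0:ℝ) 1, derivWithin f (Icc 0 1) s ≤ m) :
    ∀ a s : ℝ, 0 ≤ a → 1 * a ≤ s → s ≤ 1 → 1 * (m * a - f a) ≤ m * s - f s := by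
  intro a s ha has hs
  have := (sub_of_deriv hf h).2 a (s - a) ha (by linarith) (by linarith)
  rw [one_mul, one_mul, add_sub_cancel] at this
  linarith

/-- The condition holds if `c s^(1+β) ≤ m s - f(s) ≤ C s^(1+β)` on `[0,1]`. -/
theorem cond_of_pow {f : ℝ → ℝ} {m β c C : ℝ} (hm : 0 < m) (hβ : 0 < β) (hc : 0 < c)
    (h : ∀ s ∈ Icc (0:ℝ) 1, c * s ^ (1 + β) ≤ m * s - f s ∧ m * s - f s ≤ C * s ^ (1 + β)) :
    ∃ A : ℝ, 1 ≤ A ∧ ∀ a s, 0 ≤ a → A * a ≤ s → s ≤ 1 → A * (m * a - f a) ≤ m * s - f s := by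
  obtain ⟨A, hA1, hA⟩ := sub_of_pow hm hβ hc h
  have hA0 : 0 < A := by linarith
  refine ⟨A, hA1, fun a s ha has hs => ?_⟩
  have e1 : A * (a + (s / A - a)) = s := by field_simp; ring
  have := hA a (s / A - a) ha (by
    have : a ≤ s / A := by rw [le_div_iff₀ hA0]; linarith
    linarith) (by rw [e1]; exact hs)
  rw [e1] at this
  have e2 : A * (f a + m * (s / A - a)) = A * f a + m * s - A * (m * a) := by
    field_simp
    ring
  linarith

/-- The condition holds if `f(s) = m s` near `0` and `f(s) ≤ m s` on `[0,1]`. -/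
theorem cond_of_linear {f : ℝ → ℝ} {m s₀ : ℝ} (hs₀ : 0 < s₀) (h1 : ∀ s ∈ Icc 0 s₀, f s = m * s)
    (h2 : ∀ s ∈ Icc (0:ℝ) 1, f s ≤ m * s) :
    ∃ A : ℝ, 1 ≤ A ∧ ∀ a s, 0 ≤ a → A * a ≤ s → s ≤ 1 → A * (m * a - f a) ≤ m * s - f s := by
  refine ⟨max 1 (1 / s₀), le_max_left _ _, fun a s ha has hs => ?_⟩
  set A := max 1 (1 / s₀) with hA
  have hA1 : 1 ≤ A := le_max_left _ _
  have hA2 : 1 / s₀ ≤ A := le_max_right _ _
  have h4 : a ≤ s₀ := by
    rw [div_le_iff₀ hs₀] at hA2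
    have h6 : A * a ≤ A * s₀ := by linarith
    exact le_of_mul_le_mul_left h6 (by linarith)
  rw [h1 a ⟨ha, h4⟩]
  have h5 : 0 ≤ s := by
    have : 0 ≤ A * a := by positivity
    linarith
  have := h2 s ⟨h5, hs⟩
  simp
  linarith

end Pool.Agent.Results.MP_609556_an.WeakKPPPlanarity
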